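import Pool.Agent.NTS.StmtsE
import Pool.Agent.Helper60_PFS.Simp
import Pool.Agent.Helper37_PFS.Stmts3

/-!
# NTS squad, row ORE (helper91): the orbit closure of a simplex
-/

set_option autoImplicit false

open Matrix Filter Topology

namespace Pool.Agent.NTS.H91

open Pool.Agent.PFS Pool.Agent.PFJ Pool.Agent.PFS.H37

theorem ore : OreStmt := by
  classical
  intro n C Γ h K v hv htriv
  have elm : ElmStmt := Pool.Agent.PFS.H60.elm
  have key : ∀ (F : (Fin K → V n) → (Fin K → V n)), Continuous F →
      (∀ x ∈ Orb Γ v, F x ∈ Orb Γ v) → ∀ x ∈ closure (Orb Γ v), F x ∈ closure (Orb Γ v) := by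
    intro F hF hm x hx
    have := image_closure_subset_closure_image hF (s := Orb Γ v) ⟨x, hx, rfl⟩
    refine closure_mono ?_ this
    rintro _ ⟨z, hz, rfl⟩
    exact hm z hz
  refine ⟨fun w => IsPES C Γ w ∧ w ∈ closure (Orb Γ v), ⟨fun w hw => hw.1, ?_, ?_, ?_⟩, ?_, ?_⟩
  · rintro w ⟨hw, hwc⟩ c hc
    refine ⟨(elm n C Γ h (Fin K) w hw).1 c hc, ?_⟩
    refine key (fun x i => c i • x i) ?_ ?_ _ hwc
    · have hci : ∀ i : Fin K, Continuous (fun x : Fin K → V n => c i • x i) := fun i =>
        (continuous_const_smul (c i)).comp (continuous_apply i)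
      exact continuous_pi hci
    · rintro _ ⟨g, hg, d, hd, rfl⟩
      refine ⟨g, hg, fun i => c i * d i, fun i => mul_pos (hc _) (hd i), ?_⟩
      funext i
      simp only [smul_smul]
  · rintro w ⟨hw, hwc⟩ g hg s hs
    refine ⟨(elm n C Γ h (Fin K) w hw).2.1 g hg s hs, ?_⟩
    refine key (fun x i => s • act g (x i)) ?_ ?_ _ hwc
    · have hci : ∀ i : Fin K, Continuous (fun x : Fin K → V n => s • act g (x i)) := fun i =>
        (continuous_const_smul s).comp ((CC.act_continuous g).comp (continuous_apply i))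
      exact continuous_pi hci
    · rintro _ ⟨g', hg', d, hd, rfl⟩
      refine ⟨g * g', Γ.mul_mem hg hg', fun i => s * d i, fun i => mul_pos hs (hd i), ?_⟩
      funext i
      simp only
      rw [CC.act_smul, smul_smul, CC.act_mul]
  · intro x w hx hlim hw
    refine ⟨hw, ?_⟩
    exact isClosed_closure.mem_of_tendsto (tendsto_pi_nhds.mpr hlim)
      (Eventually.of_forall fun m => (hx m).2)
  · rintro w ⟨hw, hwc⟩ i j hij y hy M hM
    have hP := h.toPCone
    have hx : w i + w j ∈ closure C := hP.cl_add (hw.1.cl i) (hw.1.cl j)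
    -- enlarge `M`
    obtain ⟨M', hM'0, hM'⟩ : ∃ M' : ℝ, 0 ≤ M' ∧ M' • (w i + w j) - y ∈ closure C := by
      refine ⟨max M 0, le_max_right _ _, ?_⟩
      have e : max M 0 • (w i + w j) - y = (M • (w i + w j) - y) + (max M 0 - M) • (w i + w j) := by
        rw [sub_smul]; abel
      rw [e]
      exact hP.cl_add hM (hP.cl_smul hx (sub_nonneg.2 (le_max_left _ _)))
    have hface : (w i + w j) + y ∈ Face C (w i + w j) := by
      have h1 : 0 < 1 + M' := by linarith
      refine ⟨(1 + M')⁻¹, inv_pos.2 h1, ?_, ?_⟩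
      · have e : (w i + w j) - (1 + M')⁻¹ • ((w i + w j) + y) =
            (1 + M')⁻¹ • (M' • (w i + w j) - y) := by
          have e2 : (w i + w j) = (1 + M')⁻¹ • ((1 + M') • (w i + w j)) := by
            rw [smul_smul, inv_mul_cancel₀ h1.ne', one_smul]
          nth_rewrite 1 [e2]
          rw [← smul_sub, add_smul, one_smul]
          congr 1
          abel
        rw [e]
        exact hP.cl_smul hM' (inv_pos.2 h1).le
      · have e : (w i + w j) + y - (1 + M')⁻¹ • (w i + w j) =
            (1 - (1 + M')⁻¹) • (w i + w j) + y := by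
          rw [sub_smul, one_smul]; abel
        rw [e]
        refine hP.cl_add (hP.cl_smul hx ?_) hy
        have : (1 + M')⁻¹ ≤ 1 := inv_le_one_of_one_le₀ (by linarith)
        linarith
    obtain ⟨a, b, hab⟩ := htriv w hw hwc i j hij _ hface
    refine ⟨a - 1, b - 1, ?_⟩
    have : y = (w i + w j + y) - (w i + w j) := by abel
    rw [this, hab, sub_smul, sub_smul, one_smul, one_smul]
    abel
  · refine ⟨hv, subset_closure ⟨1, Γ.one_mem, fun _ => 1, fun _ => one_pos, ?_⟩⟩
    funext i
    rw [CC.act_one, one_smul]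

end Pool.Agent.NTS.H91
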